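import Pool.Agent.Y757.HW.Stm0

set_option autoImplicit false

/-! The kernel integral: the integral over a window of the logarithm of the reciprocal of the
Blaschke factor of the half-plane. -/

namespace Pool.Agent.Y657.HW

open MeasureTheory Set Pool.Agent.Y757.HW

/-- a primitive of the logarithm of a sum of two squares -/
theorem hasD (a : ℝ) (ha : 0 < a) (v : ℝ) :
    HasDerivAt (fun v : ℝ => v * Real.log (a ^ 2 + v ^ 2) - 2 * v + 2 * a * Real.arctan (v / a))
      (Real.log (a ^ 2 + v ^ 2)) v := by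
  have hpos : 0 < a ^ 2 + v ^ 2 := by positivity
  have h1 : HasDerivAt (fun v : ℝ => a ^ 2 + v ^ 2) (2 * v) v := by
    simpa using ((hasDerivAt_pow 2 v).const_add (a ^ 2))
  have h2 := h1.log hpos.ne'
  have h3 := (hasDerivAt_id' v).mul h2
  have h4 := ((hasDerivAt_id' v).const_mul 2)
  have h5 : HasDerivAt (fun v : ℝ => v / a) (1 / a) v := (hasDerivAt_id' v).div_const a
  have h6 := (h5.arctan).const_mul (2 * a)
  have h7 := (h3.sub h4).add h6
  have key : 1 * Real.log (a ^ 2 + v ^ 2) + v * (2 * v / (a ^ 2 + v ^ 2)) - 2 * 1 +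
      2 * a * (1 / (1 + (v / a) ^ 2) * (1 / a)) = Real.log (a ^ 2 + v ^ 2) := by
    have h8 : 1 + (v / a) ^ 2 = (a ^ 2 + v ^ 2) / a ^ 2 := by
      field_simp
    rw [h8]
    have ha' := ha.ne'
    have hp' := hpos.ne'
    field_simp
    ring
  rw [key] at h7
  exact h7

theorem cont_log (a : ℝ) (ha : 0 < a) : Continuous fun v : ℝ => Real.log (a ^ 2 + v ^ 2) := by
  apply Continuous.log
  · fun_prop
  · intro v
    have : 0 < a ^ 2 + v ^ 2 := by positivity
    exact this.ne'

theorem int_log (a : ℝ) (ha : 0 < a) (V : ℝ) :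
    ∫ v in (-V)..V, Real.log (a ^ 2 + v ^ 2) =
      2 * V * Real.log (a ^ 2 + V ^ 2) - 4 * V + 4 * a * Real.arctan (V / a) := by
  rw [intervalIntegral.integral_eq_sub_of_hasDerivAt (fun v _ => hasD a ha v)
    ((cont_log a ha).intervalIntegrable _ _)]
  have h1 : Real.arctan (-V / a) = - Real.arctan (V / a) := by
    rw [neg_div, Real.arctan_neg]
  rw [h1]
  have h2 : (-V) ^ 2 = V ^ 2 := by ring
  rw [h2]
  ring

theorem mono_sub : Monotone fun u : ℝ => u - Real.arctan u := by
  apply monotone_of_deriv_nonneg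
  · exact differentiable_id.sub Real.differentiable_arctan
  · intro u
    have h : HasDerivAt (fun u : ℝ => u - Real.arctan u) (1 - 1 / (1 + u ^ 2)) u :=
      (hasDerivAt_id' u).sub (Real.hasDerivAt_arctan u)
    rw [h.deriv]
    have h1 : 0 < 1 + u ^ 2 := by positivity
    have h2 : 1 / (1 + u ^ 2) ≤ 1 := by
      rw [div_le_one h1]
      nlinarith [sq_nonneg u]
    linarith

theorem t_ker : S_ker := by
  intro x V hx hx2 hV
  have hV0 : 0 < V := by linarith
  have ha1 : 0 < 1 + x := by linarith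
  have ha0 : 0 < 1 - x := by linarith
  have hq : ∀ v : ℝ, Real.log (q x v) =
      Real.log ((1 + x) ^ 2 + v ^ 2) - Real.log ((1 - x) ^ 2 + v ^ 2) := by
    intro v
    have h1 : 0 < (1 + x) ^ 2 + v ^ 2 := by positivity
    have h0 : 0 < (1 - x) ^ 2 + v ^ 2 := by positivity
    exact Real.log_div h1.ne' h0.ne'
  have hint : ∫ v in (-V)..V, Real.log (q x v) =
      (2 * V * Real.log ((1 + x) ^ 2 + V ^ 2) - 4 * V + 4 * (1 + x) * Real.arctan (V / (1 + x))) -
      (2 * V * Real.log ((1 - x) ^ 2 + V ^ 2) - 4 * V + 4 * (1 - x) * Real.arctan (V / (1 - x))) := by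
    simp only [hq]
    rw [intervalIntegral.integral_sub ((cont_log _ ha1).intervalIntegrable _ _)
      ((cont_log _ ha0).intervalIntegrable _ _), int_log _ ha1, int_log _ ha0]
  rw [hint]
  have hlog : Real.log ((1 - x) ^ 2 + V ^ 2) ≤ Real.log ((1 + x) ^ 2 + V ^ 2) := by
    apply Real.log_le_log (by positivity)
    nlinarith
  have hat : ∀ a : ℝ, 0 < a → Real.arctan (V / a) = Real.pi / 2 - Real.arctan (a / V) := by
    intro a ha
    have h := Real.arctan_inv_of_pos (x := a / V) (by positivity)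
    rw [inv_div] at h
    exact h
  rw [hat _ ha1, hat _ ha0]
  have hu : (1 - x) / V ≤ (1 + x) / V := by
    apply div_le_div_of_nonneg_right _ hV0.le
    linarith
  have hm := mono_sub hu
  have hm0 := mono_sub (show (0 : ℝ) ≤ (1 - x) / V by positivity)
  simp only [Real.arctan_zero, sub_zero] at hm0
  simp only at hm
  set A1 := Real.arctan ((1 + x) / V)
  set A0 := Real.arctan ((1 - x) / V)
  have e1 : A1 - A0 ≤ 2 * x / V := by
    have : (1 + x) / V - (1 - x) / V = 2 * x / V := by
      rw [← sub_div]; congr 1; ring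
    linarith
  have e0 : A0 ≤ (1 - x) / V := by linarith
  have f1 : (1 + x) * (A1 - A0) ≤ (1 + x) * (2 * x / V) := mul_le_mul_of_nonneg_left e1 ha1.le
  have f0 : 2 * x * A0 ≤ 2 * x * ((1 - x) / V) := mul_le_mul_of_nonneg_left e0 (by linarith)
  have f2 : (1 + x) * (2 * x / V) + 2 * x * ((1 - x) / V) = 4 * x / V := by
    field_simp
    ring
  have f3 : 16 * x / V = 4 * (4 * x / V) := by ring
  have f4 : 2 * V * Real.log ((1 - x) ^ 2 + V ^ 2) ≤ 2 * V * Real.log ((1 + x) ^ 2 + V ^ 2) :=
    mul_le_mul_of_nonneg_left hlog (by linarith)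
  rw [f3]
  nlinarith

end Pool.Agent.Y657.HW
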